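import Pool.Agent.BER.Stmts

/-!
# Squad BER (MP_be01ff_an), row TLM: multiplication by `sin^(2p)`
-/

set_option autoImplicit false

noncomputable section

namespace Pool.Agent.BER.H5

open Pool.Agent.BER

section

variable {M : Type} [NormedAddCommGroup M] [NormedSpace ℝ M]

theorem tl_mono {J J' : ℕ} (h : J ≤ J') : TL M J ≤ TL M J' := by
  unfold TL
  refine Submodule.span_mono ?_
  rintro P ⟨b, j, s, x, hj, hJ, rfl⟩
  exact ⟨b, j, s, x, hj, hJ.trans h, rfl⟩

theorem tl_cosZ {J : ℕ} (b : ℕ) (n : ℤ) (hn : Odd n) (hJ : n.natAbs ≤ J) (x : M) :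
    (fun (ψ L : ℝ) => (L ^ b * Real.cos ((n : ℝ) * ψ)) • x) ∈ TL M J := by
  have h1 : ∀ ψ : ℝ, Real.cos ((n : ℝ) * ψ) = Real.cos ((n.natAbs : ℝ) * ψ) := by
    intro ψ
    rw [Nat.cast_natAbs, Int.cast_abs]
    rcases abs_choice (n : ℝ) with h2 | h2
    · rw [h2]
    · rw [h2, neg_mul, Real.cos_neg]
  simp only [h1]
  exact Submodule.subset_span ⟨b, n.natAbs, false, x, Int.natAbs_odd.mpr hn, hJ, rfl⟩

theorem tl_sinZ {J : ℕ} (b : ℕ) (n : ℤ) (hn : Odd n) (hJ : n.natAbs ≤ J) (x : M) :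
    (fun (ψ L : ℝ) => (L ^ b * Real.sin ((n : ℝ) * ψ)) • x) ∈ TL M J := by
  have h0 : (fun (ψ L : ℝ) => (L ^ b * Real.sin ((n.natAbs : ℝ) * ψ)) • x) ∈ TL M J :=
    Submodule.subset_span ⟨b, n.natAbs, true, x, Int.natAbs_odd.mpr hn, hJ, rfl⟩
  rcases abs_choice (n : ℝ) with h2 | h2
  · have h1 : ∀ ψ : ℝ, Real.sin ((n : ℝ) * ψ) = Real.sin ((n.natAbs : ℝ) * ψ) := by
      intro ψ
      rw [Nat.cast_natAbs, Int.cast_abs, h2]
    simp only [h1]
    exact h0
  · have h1 : (fun (ψ L : ℝ) => (L ^ b * Real.sin ((n : ℝ) * ψ)) • x) =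
        -(fun (ψ L : ℝ) => (L ^ b * Real.sin ((n.natAbs : ℝ) * ψ)) • x) := by
      funext ψ L
      rw [Pi.neg_apply, Pi.neg_apply, Nat.cast_natAbs, Int.cast_abs, h2, neg_mul, Real.sin_neg,
        mul_neg, neg_smul, neg_neg]
    rw [h1]
    exact neg_mem h0

theorem tl_sin2 {J : ℕ} (V : ℝ → ℝ → M) (hV : V ∈ TL M J) :
    (fun ψ L => (Real.sin ψ ^ 2) • V ψ L) ∈ TL M (J + 2) := by
  unfold TL at hV
  induction hV using Submodule.span_induction with
  | zero =>
    have h : (fun (ψ L : ℝ) => (Real.sin ψ ^ 2) • (0 : ℝ → ℝ → M) ψ L) = 0 := by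
      funext ψ L
      simp
    rw [h]
    exact zero_mem _
  | add V W _ _ h1 h2 =>
    have h : (fun (ψ L : ℝ) => (Real.sin ψ ^ 2) • (V + W) ψ L) =
        (fun ψ L => (Real.sin ψ ^ 2) • V ψ L) + (fun ψ L => (Real.sin ψ ^ 2) • W ψ L) := by
      funext ψ L
      simp
    rw [h]
    exact add_mem h1 h2
  | smul a V _ h1 =>
    have h : (fun (ψ L : ℝ) => (Real.sin ψ ^ 2) • (a • V) ψ L) =
        a • (fun ψ L => (Real.sin ψ ^ 2) • V ψ L) := by
      funext ψ L
      simp only [Pi.smul_apply]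
      rw [smul_comm]
    rw [h]
    exact Submodule.smul_mem _ a h1
  | mem V hV =>
    obtain ⟨b, j, s, x, hj, hJ, rfl⟩ := hV
    have hodd : Odd (j : ℤ) := by exact_mod_cast hj
    have hp : Odd ((j : ℤ) + 2) := hodd.add_even even_two
    have hm : Odd ((j : ℤ) - 2) := hodd.sub_even even_two
    have hj1 : 1 ≤ j := hj.pos
    have a0 : ((j : ℤ)).natAbs ≤ J + 2 := by omega
    have ap : ((j : ℤ) + 2).natAbs ≤ J + 2 := by omega
    have am : ((j : ℤ) - 2).natAbs ≤ J + 2 := by omega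
    have e0 : ∀ ψ : ℝ, (((j : ℤ) : ℤ) : ℝ) * ψ = (j : ℝ) * ψ := fun ψ => by push_cast; ring
    have ep : ∀ ψ : ℝ, (((j : ℤ) + 2 : ℤ) : ℝ) * ψ = (j : ℝ) * ψ + 2 * ψ := fun ψ => by
      push_cast
      ring
    have em : ∀ ψ : ℝ, (((j : ℤ) - 2 : ℤ) : ℝ) * ψ = (j : ℝ) * ψ - 2 * ψ := fun ψ => by
      push_cast
      ring
    cases s with
    | false =>
      have c0 := tl_cosZ b (j : ℤ) hodd a0 ((1 / 2 : ℝ) • x)
      have cp := tl_cosZ b ((j : ℤ) + 2) hp ap ((1 / 4 : ℝ) • x)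
      have cm := tl_cosZ b ((j : ℤ) - 2) hm am ((1 / 4 : ℝ) • x)
      refine (congrArg (fun P => P ∈ TL M (J + 2)) ?_).mp (sub_mem (sub_mem c0 cp) cm)
      funext ψ L
      simp only [Pi.sub_apply, e0, ep, em, smul_smul, ← sub_smul, tg, cond_false]
      congr 1
      rw [Real.cos_add, Real.cos_sub, Real.cos_two_mul, Real.sin_sq]
      ring
    | true =>
      have c0 := tl_sinZ b (j : ℤ) hodd a0 ((1 / 2 : ℝ) • x)
      have cp := tl_sinZ b ((j : ℤ) + 2) hp ap ((1 / 4 : ℝ) • x)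
      have cm := tl_sinZ b ((j : ℤ) - 2) hm am ((1 / 4 : ℝ) • x)
      refine (congrArg (fun P => P ∈ TL M (J + 2)) ?_).mp (sub_mem (sub_mem c0 cp) cm)
      funext ψ L
      simp only [Pi.sub_apply, e0, ep, em, smul_smul, ← sub_smul, tg, cond_true]
      congr 1
      rw [Real.sin_add, Real.sin_sub, Real.cos_two_mul, Real.sin_sq]
      ring

theorem tl_sin (x : M) : (fun ψ _ => Real.sin ψ • x : ℝ → ℝ → M) ∈ TL M 1 := by
  refine Submodule.subset_span ⟨0, 1, true, x, odd_one, le_refl _, ?_⟩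
  funext ψ L
  simp [tg]

theorem tl_cos (x : M) : (fun ψ _ => Real.cos ψ • x : ℝ → ℝ → M) ∈ TL M 1 := by
  refine Submodule.subset_span ⟨0, 1, false, x, odd_one, le_refl _, ?_⟩
  funext ψ L
  simp [tg]

end

theorem tl_mul {X : Type} [NormedCommRing X] [NormedAlgebra ℝ X] {J : ℕ} (y : X)
    (V : ℝ → ℝ → X) (hV : V ∈ TL X J) : (fun ψ L => y * V ψ L) ∈ TL X J := by
  unfold TL at hV
  induction hV using Submodule.span_induction with
  | zero =>
    have h : (fun (ψ L : ℝ) => y * (0 : ℝ → ℝ → X) ψ L) = 0 := by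
      funext ψ L
      simp
    rw [h]
    exact zero_mem _
  | add V W _ _ h1 h2 =>
    have h : (fun (ψ L : ℝ) => y * (V + W) ψ L) =
        (fun ψ L => y * V ψ L) + (fun ψ L => y * W ψ L) := by
      funext ψ L
      simp [mul_add]
    rw [h]
    exact add_mem h1 h2
  | smul a V _ h1 =>
    have h : (fun (ψ L : ℝ) => y * (a • V) ψ L) = a • (fun ψ L => y * V ψ L) := by
      funext ψ L
      simp only [Pi.smul_apply]
      rw [mul_smul_comm]
    rw [h]
    exact Submodule.smul_mem _ a h1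
  | mem V hV =>
    obtain ⟨b, j, s, x, hj, hJ, rfl⟩ := hV
    refine Submodule.subset_span ⟨b, j, s, y * x, hj, hJ, ?_⟩
    funext ψ L
    rw [mul_smul_comm]

theorem tlm : TlmStmt := by
  intro X _ _
  refine ⟨?_, ?_, fun x => ⟨tl_sin x, tl_cos x⟩⟩
  · intro J p x V hV
    induction p with
    | zero =>
      have h : (fun ψ L => (Real.sin ψ • x) ^ (2 * 0) * V ψ L) = V := by
        funext ψ L
        simp
      rw [h]
      exact hV
    | succ p ih =>
      have h1 := tl_sin2 _ (tl_mul (x ^ 2) _ ih)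
      have h2 : J + 2 * (p + 1) = J + 2 * p + 2 := by ring
      rw [h2]
      refine (congrArg (fun P => P ∈ TL X (J + 2 * p + 2)) ?_).mp h1
      funext ψ L
      have h3 : 2 * (p + 1) = 2 + 2 * p := by ring
      rw [h3, pow_add, smul_pow (Real.sin ψ) x 2, mul_assoc, smul_mul_assoc]
  · intro p x
    induction p with
    | zero =>
      have h := tl_sin x
      simpa using h
    | succ p ih =>
      have h1 := tl_sin2 _ ih
      have h2 : 2 * (p + 1) + 1 = 2 * p + 1 + 2 := by ring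
      rw [h2]
      refine (congrArg (fun P => P ∈ TL X (2 * p + 1 + 2)) ?_).mp h1
      funext ψ L
      rw [smul_smul]
      congr 1
      ring

end Pool.Agent.BER.H5
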